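import Mathlib

set_option autoImplicit false

namespace Pool.Agent.Results.MP_6bba90_al.CentralQuotient

open Topology Set
open scoped IsMulCommutative Pointwise commutatorElement

section algebra

variable {G : Type*} [Group G]

theorem comm_aux {Q : Type*} [CommGroup Q] (a b c : Q) (n : ℕ) :
    (a * b * c) ^ n * a ^ n * ((a * b) ^ n)⁻¹ * ((a * c) ^ n)⁻¹ = 1 := by
  rw [mul_inv_eq_one, mul_inv_eq_iff_eq_mul]
  simp only [mul_pow]
  rw [mul_assoc (a ^ n * b ^ n) (c ^ n) (a ^ n), mul_comm (c ^ n) (a ^ n),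
    mul_comm (a ^ n * b ^ n) (a ^ n * c ^ n)]

theorem comm_aux2 {Q : Type*} [CommGroup Q] {X1 X2 X3 X4 O S1 S2 T1 T2 : Q}
    (i1 : X1 * O = S1 * T1) (i2 : X2 * O = S2 * T1) (i3 : X3 * O = S1 * T2)
    (i4 : X4 * O = S2 * T2) : X1 * X4 = X3 * X2 := by
  have h5 : (X1 * X4) * (O * O) = (X3 * X2) * (O * O) := by
    rw [mul_mul_mul_comm X1 X4, i1, i4, mul_mul_mul_comm X3 X2, i3, i2,
      mul_mul_mul_comm S1 T1, mul_mul_mul_comm S1 T2, mul_comm T1 T2]
  exact mul_right_cancel h5

/-- The element measuring the failure of `u ↦ (x u)^n` to be multiplicative. -/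
theorem defect_mem (x u v : G) (n : ℕ) (K : Subgroup G) (hx : x ∈ K) (hu : u ∈ K) (hv : v ∈ K) :
    ∃ e : K, e ∈ commutator K ∧
      (e : G) = (x * u * v) ^ n * x ^ n * ((x * u) ^ n)⁻¹ * ((x * v) ^ n)⁻¹ := by
  refine ⟨((⟨x, hx⟩ : K) * ⟨u, hu⟩ * ⟨v, hv⟩) ^ n * (⟨x, hx⟩ : K) ^ n *
    (((⟨x, hx⟩ : K) * ⟨u, hu⟩) ^ n)⁻¹ * (((⟨x, hx⟩ : K) * ⟨v, hv⟩) ^ n)⁻¹, ?_, ?_⟩
  · rw [← Abelianization.ker_of, MonoidHom.mem_ker]
    simp only [map_mul, map_pow, map_inv]
    exact comm_aux _ _ _ n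
  · rfl

end algebra

section main

variable {G : Type*} [Group G] [TopologicalSpace G] [IsTopologicalGroup G] [CompactSpace G]
  [T2Space G] [TotallyDisconnectedSpace G]

theorem isClosed_center' : IsClosed ((Subgroup.center G : Subgroup G) : Set G) := by
  have : ((Subgroup.center G : Subgroup G) : Set G) = Set.centralizer Set.univ := by
    rw [Set.centralizer_univ]; rfl
  rw [this]
  exact isClosed_centralizer _

/-- Baire, first step: a coset of an open subgroup on which a power map takes central values. -/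
theorem step_one (hp : ∀ g : G, ∃ n : ℕ, 0 < n ∧ g ^ n ∈ Subgroup.center G) :
    ∃ (x : G) (n : ℕ) (U : OpenNormalSubgroup G), 0 < n ∧
      ∀ u ∈ U, (x * u) ^ n ∈ Subgroup.center G := by
  have hc : ∀ k : ℕ, IsClosed {g : G | g ^ (k + 1) ∈ Subgroup.center G} := fun k =>
    isClosed_center'.preimage (continuous_pow (k + 1))
  have hU : ⋃ k : ℕ, {g : G | g ^ (k + 1) ∈ Subgroup.center G} = Set.univ := by
    rw [Set.eq_univ_iff_forall]
    intro g
    obtain ⟨n, hn, h⟩ := hp g
    rw [Set.mem_iUnion]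
    refine ⟨n - 1, ?_⟩
    show g ^ (n - 1 + 1) ∈ Subgroup.center G
    rwa [Nat.sub_add_cancel hn]
  obtain ⟨k, x, hx⟩ := nonempty_interior_of_iUnion_of_closed hc hU
  have h1 : IsOpen ((fun u : G => x * u) ⁻¹' interior {g : G | g ^ (k + 1) ∈ Subgroup.center G}) :=
    isOpen_interior.preimage (continuous_const_mul x)
  obtain ⟨U, hU'⟩ := ProfiniteGrp.exist_openNormalSubgroup_sub_open_nhds_of_one h1
    (by show x * 1 ∈ interior {g : G | g ^ (k + 1) ∈ Subgroup.center G}; rwa [mul_one])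
  refine ⟨x, k + 1, U, Nat.succ_pos k, fun u hu => ?_⟩
  have : x * u ∈ {g : G | g ^ (k + 1) ∈ Subgroup.center G} := interior_subset (hU' hu)
  exact this

/-- Baire, second step: a power of the power map is additive on a product of cosets. -/
theorem step_two (h3 : ∀ x y z : G, ∀ h ∈ commutator (Subgroup.closure ({x, y, z} : Set G)),
      IsOfFinOrder h) (x : G) (n : ℕ) (U : OpenNormalSubgroup G) :
    ∃ (m : ℕ) (u₀ v₀ : G) (W : OpenNormalSubgroup G), 0 < m ∧ u₀ ∈ U ∧ v₀ ∈ U ∧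
      (W : Set G) ⊆ U ∧ ∀ w ∈ W, ∀ w' ∈ W,
        ((x * (u₀ * w) * (v₀ * w')) ^ n * x ^ n * ((x * (u₀ * w)) ^ n)⁻¹ *
          ((x * (v₀ * w')) ^ n)⁻¹) ^ m = 1 := by
  set c : G × G → G := fun p => (x * p.1 * p.2) ^ n * x ^ n * ((x * p.1) ^ n)⁻¹ *
    ((x * p.2) ^ n)⁻¹ with hcdef
  have hcc : Continuous c := by
    rw [hcdef]; fun_prop
  have hc : ∀ k : ℕ, IsClosed {p : G × G | c p ^ (k + 1) = 1} := fun k =>
    isClosed_singleton.preimage (hcc.pow (k + 1))
  have hfin : ∀ p, IsOfFinOrder (c p) := by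
    intro p
    obtain ⟨e, he, hee⟩ := defect_mem x p.1 p.2 n (Subgroup.closure ({x, p.1, p.2} : Set G))
      (Subgroup.subset_closure (by simp)) (Subgroup.subset_closure (by simp))
      (Subgroup.subset_closure (by simp))
    have := h3 x p.1 p.2 e he
    have h2 : IsOfFinOrder ((e : G)) := Submonoid.isOfFinOrder_coe.2 this
    rw [hee] at h2
    exact h2
  have hU : ⋃ k : ℕ, {p : G × G | c p ^ (k + 1) = 1} = Set.univ := by
    rw [Set.eq_univ_iff_forall]
    intro p
    obtain ⟨m, hm, h⟩ := (isOfFinOrder_iff_pow_eq_one.1 (hfin p))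
    rw [Set.mem_iUnion]
    refine ⟨m - 1, ?_⟩
    show c p ^ (m - 1 + 1) = 1
    rwa [Nat.sub_add_cancel hm]
  have hd := dense_iUnion_interior_of_closed hc hU
  have hUU : IsOpen ((U : Set G) ×ˢ (U : Set G)) := U.isOpen.prod U.isOpen
  obtain ⟨p, hpU, hp⟩ := hd.inter_open_nonempty _ hUU ⟨(1, 1), ⟨one_mem _, one_mem _⟩⟩
  rw [Set.mem_iUnion] at hp
  obtain ⟨k, hk⟩ := hp
  have hf : Continuous fun q : G × G => (p.1 * q.1, p.2 * q.2) := by fun_prop
  have hV : IsOpen ((fun q : G × G => (p.1 * q.1, p.2 * q.2)) ⁻¹'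
      interior {p : G × G | c p ^ (k + 1) = 1}) := isOpen_interior.preimage hf
  have hmem : ((1 : G), (1 : G)) ∈ (fun q : G × G => (p.1 * q.1, p.2 * q.2)) ⁻¹'
      interior {p : G × G | c p ^ (k + 1) = 1} := by
    show (p.1 * 1, p.2 * 1) ∈ interior {p : G × G | c p ^ (k + 1) = 1}
    rw [mul_one, mul_one]
    exact hk
  obtain ⟨A, B, hA, hB, h1A, h1B, hAB⟩ := isOpen_prod_iff.1 hV 1 1 hmem
  obtain ⟨W, hW⟩ := ProfiniteGrp.exist_openNormalSubgroup_sub_open_nhds_of_one
    ((hA.inter hB).inter U.isOpen) ⟨⟨h1A, h1B⟩, one_mem _⟩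
  refine ⟨k + 1, p.1, p.2, W, Nat.succ_pos k, hpU.1, hpU.2, fun w hw => (hW hw).2, ?_⟩
  intro w hw w' hw'
  have : (p.1 * w, p.2 * w') ∈ {p : G × G | c p ^ (k + 1) = 1} :=
    interior_subset (hAB (show (w, w') ∈ A ×ˢ B from ⟨(hW hw).1.1, (hW hw').1.2⟩))
  exact this


/-- The power map in the power of the centre. -/
theorem step_three (x : G) (n m : ℕ) (U W : OpenNormalSubgroup G)
    (hU : ∀ u ∈ U, (x * u) ^ n ∈ Subgroup.center G) (u₀ v₀ : G) (hu₀ : u₀ ∈ U) (hv₀ : v₀ ∈ U)
    (hWU : (W : Set G) ⊆ U)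
    (hW : ∀ w ∈ W, ∀ w' ∈ W,
        ((x * (u₀ * w) * (v₀ * w')) ^ n * x ^ n * ((x * (u₀ * w)) ^ n)⁻¹ *
          ((x * (v₀ * w')) ^ n)⁻¹) ^ m = 1) :
    ∃ κ : (W.toOpenSubgroup.toSubgroup : Subgroup G) →* Subgroup.center G, Continuous κ ∧
      ∀ (z : G) (hz : z ∈ W.toOpenSubgroup.toSubgroup), z ∈ Subgroup.center G →
        ((κ ⟨z, hz⟩ : Subgroup.center G) : G) = z ^ (n * m) := by
  -- the function `E`
  set E : G → G := fun u => ((x * u) ^ n) ^ m with hE
  have hEc : Continuous E := by rw [hE]; fun_prop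
  have hEU : ∀ u ∈ U, E u ∈ Subgroup.center G := fun u hu => pow_mem (hU u hu) m
  have hWU' : ∀ w ∈ W, w ∈ U := fun w hw => hWU hw
  -- additivity
  have hadd : ∀ w ∈ W, ∀ w' ∈ W, E (u₀ * w * (v₀ * w')) * E 1 = E (u₀ * w) * E (v₀ * w') := by
    intro w hw w' hw'
    have h1 : u₀ * w ∈ U := mul_mem hu₀ (hWU' w hw)
    have h2 : v₀ * w' ∈ U := mul_mem hv₀ (hWU' w' hw')
    have c1 := hU _ (mul_mem h1 h2)
    have c2 := hU 1 (one_mem _)
    have c3 := hU _ h1
    have c4 := hU _ h2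
    have key := hW w hw w' hw'
    -- pass to the centre
    have key2 : (⟨(x * (u₀ * w * (v₀ * w'))) ^ n, c1⟩ * ⟨(x * 1) ^ n, c2⟩ *
        (⟨(x * (u₀ * w)) ^ n, c3⟩)⁻¹ * (⟨(x * (v₀ * w')) ^ n, c4⟩)⁻¹ : Subgroup.center G) ^ m = 1 := by
      apply Subtype.ext
      push_cast
      rw [mul_one, ← mul_assoc x (u₀ * w) (v₀ * w')]
      exact key
    have key3 : (⟨(x * (u₀ * w * (v₀ * w'))) ^ n, c1⟩ : Subgroup.center G) ^ m *
        (⟨(x * 1) ^ n, c2⟩ : Subgroup.center G) ^ m =
        (⟨(x * (u₀ * w)) ^ n, c3⟩ : Subgroup.center G) ^ m *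
        (⟨(x * (v₀ * w')) ^ n, c4⟩ : Subgroup.center G) ^ m := by
      rw [mul_pow, mul_pow, mul_pow, inv_pow, inv_pow, mul_inv_eq_one, mul_inv_eq_iff_eq_mul] at key2
      rw [key2, mul_comm]
    have := congrArg (Subtype.val) key3
    push_cast at this
    exact this
  -- lifts to the centre
  have haU : u₀ * v₀ ∈ U := mul_mem hu₀ hv₀
  have haW : ∀ w ∈ W, u₀ * v₀ * w ∈ U := fun w hw => mul_mem haU (hWU' w hw)
  have hnorm : (W.toOpenSubgroup.toSubgroup : Subgroup G).Normal := W.isNormal'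
  have hconj : ∀ b ∈ W, v₀ * b * v₀⁻¹ ∈ W := fun b hb => hnorm.conj_mem b hb v₀
  let P : ∀ g : G, g ∈ U → Subgroup.center G := fun g hg => ⟨E g, hEU g hg⟩
  have hP : ∀ (g : G) (hg : g ∈ U) (g' : G) (hg' : g' ∈ U), g = g' → P g hg = P g' hg' := by
    rintro g hg g' hg' rfl
    rfl
  have hmain : ∀ (b : G) (hb : b ∈ W) (w : G) (hw : w ∈ W),
      P (u₀ * v₀ * (b * w)) (haW _ (mul_mem hb hw)) * P (u₀ * v₀) haU =
        P (u₀ * v₀ * b) (haW b hb) * P (u₀ * v₀ * w) (haW w hw) := by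
    intro b hb w hw
    have e1 : ∀ (b : G) (hb : b ∈ W) (w : G) (hw : w ∈ W),
        P (u₀ * v₀ * (b * w)) (haW _ (mul_mem hb hw)) * P 1 (one_mem _) =
          P (u₀ * (v₀ * b * v₀⁻¹)) (mul_mem hu₀ (hWU' _ (hconj b hb))) *
            P (v₀ * w) (mul_mem hv₀ (hWU' w hw)) := by
      intro b hb w hw
      have := hadd (v₀ * b * v₀⁻¹) (hconj b hb) w hw
      apply Subtype.ext
      push_cast
      have hrw : u₀ * (v₀ * b * v₀⁻¹) * (v₀ * w) = u₀ * v₀ * (b * w) := by group
      rw [hrw] at this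
      exact this
    have i1 := e1 b hb w hw
    have i2 := e1 1 (one_mem _) w hw
    have i3 := e1 b hb 1 (one_mem _)
    have i4 := e1 1 (one_mem _) 1 (one_mem _)
    simp only [one_mul] at i2
    simp only [mul_one] at i3
    simp only [mul_one] at i4
    simp only [mul_one] at i2
    exact comm_aux2 i1 i2 i3 i4
  let κ : (W.toOpenSubgroup.toSubgroup : Subgroup G) →* Subgroup.center G :=
    { toFun := fun w => P (u₀ * v₀ * w) (haW w w.2) * (P (u₀ * v₀) haU)⁻¹
      map_one' := by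
        rw [mul_inv_eq_one]
        exact hP (u₀ * v₀ * ((1 : (W.toOpenSubgroup.toSubgroup : Subgroup G)) : G))
          (haW _ (1 : (W.toOpenSubgroup.toSubgroup : Subgroup G)).2) _ haU
          (by rw [OneMemClass.coe_one, mul_one])
      map_mul' := fun b w => by
        have := hmain b b.2 w w.2
        rw [← eq_mul_inv_iff_mul_eq] at this
        have h6 : P (u₀ * v₀ * ((b * w : (W.toOpenSubgroup.toSubgroup : Subgroup G)) : G))
            (haW _ (b * w).2) = P (u₀ * v₀ * (b * w)) (haW _ (mul_mem b.2 w.2)) := rfl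
        rw [h6, this]
        rw [mul_mul_mul_comm, mul_assoc] }
  refine ⟨κ, ?_, ?_⟩
  · apply continuous_induced_rng.2
    have : (Subtype.val ∘ κ) = fun w : (W.toOpenSubgroup.toSubgroup : Subgroup G) =>
        E (u₀ * v₀ * (w : G)) * (E (u₀ * v₀))⁻¹ := rfl
    rw [this]
    exact (hEc.comp (continuous_const.mul continuous_subtype_val)).mul continuous_const
  · intro z hz hzc
    show E (u₀ * v₀ * z) * (E (u₀ * v₀))⁻¹ = z ^ (n * m)
    have hcomm : ∀ g : G, Commute g z := fun g => (Subgroup.mem_center_iff.1 hzc g)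
    rw [hE]
    simp only
    rw [← mul_assoc x (u₀ * v₀) z, (hcomm (x * (u₀ * v₀))).mul_pow n,
      ((hcomm ((x * (u₀ * v₀)) ^ n)).pow_right n).mul_pow m, ← pow_mul z n m,
      (((hcomm (((x * (u₀ * v₀)) ^ n) ^ m)).pow_right (n * m))).eq, mul_inv_cancel_right]



omit [T2Space G] in
theorem transfer_continuous (H : Subgroup G) [H.FiniteIndex] (hHn : H.Normal)
    (hHo : IsOpen (H : Set G)) (κ : H →* Subgroup.center G) (hκ : Continuous κ) :
    Continuous κ.transfer := by
  apply continuous_of_continuousAt_one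
  rw [ContinuousAt, map_one]
  intro O hO
  obtain ⟨O', hO'O, hO', h1⟩ := mem_nhds_iff.1 hO
  have hop : IsOpen (Subtype.val '' (κ ⁻¹' O') : Set G) :=
    hHo.isOpenMap_subtype_val _ (hO'.preimage hκ)
  have h1m : (1 : G) ∈ (Subtype.val '' (κ ⁻¹' O') : Set G) :=
    ⟨1, by show κ 1 ∈ O'; rwa [map_one], rfl⟩
  obtain ⟨V, hV⟩ := ProfiniteGrp.exist_openNormalSubgroup_sub_open_nhds_of_one hop h1m
  have hVn : (V.toOpenSubgroup.toSubgroup : Subgroup G).Normal := V.isNormal'
  have hVH : ∀ v ∈ V, v ∈ H := by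
    intro v hv
    obtain ⟨h, _, rfl⟩ := hV hv
    exact h.2
  have hVO : ∀ (v : G) (hv : v ∈ V), κ ⟨v, hVH v hv⟩ ∈ O' := by
    intro v hv
    obtain ⟨h, hh, hhv⟩ := hV hv
    have : h = ⟨v, hVH v hv⟩ := Subtype.ext hhv
    rw [← this]
    exact hh
  rw [Filter.mem_map]
  refine Filter.mem_of_superset (V.isOpen.mem_nhds (one_mem V)) ?_
  intro v hv
  show κ.transfer v ∈ O
  apply hO'O
  have hmem : κ.transfer v ∈ (V.toOpenSubgroup.toSubgroup.subgroupOf H).map κ := by
    rw [MonoidHom.transfer_def κ default v]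
    unfold Subgroup.leftTransversals.diff
    apply Subgroup.prod_mem
    intro q _
    refine ⟨_, ?_, rfl⟩
    rw [SetLike.mem_coe, Subgroup.mem_subgroupOf]
    simp only
    rw [Subgroup.smul_apply_eq_smul_apply_inv_smul]
    have hq : v⁻¹ • q = q := by
      obtain ⟨g, rfl⟩ := QuotientGroup.mk_surjective q
      show ((v⁻¹ * g : G) : G ⧸ H) = (g : G ⧸ H)
      rw [eq_comm, QuotientGroup.eq]
      have := hHn.conj_mem v⁻¹ (inv_mem (hVH v hv)) g⁻¹
      rw [inv_inv] at this
      rwa [← mul_assoc]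
    rw [hq, smul_eq_mul, ← mul_assoc]
    have := hVn.conj_mem v hv
      ((((default : H.LeftTransversal)).2.leftQuotientEquiv q : G)⁻¹)
    rw [inv_inv] at this
    exact this
  obtain ⟨w, hw, hwe⟩ := hmem
  rw [← hwe]
  exact hVO w.1 hw

theorem main_exponent (hp : ∀ g : G, ∃ n : ℕ, 0 < n ∧ g ^ n ∈ Subgroup.center G)
    (h3 : ∀ x y z : G, ∀ h ∈ commutator (Subgroup.closure ({x, y, z} : Set G)),
      IsOfFinOrder h) :
    ∃ e : ℕ, 0 < e ∧ ∀ z ∈ (commutator G).topologicalClosure, z ∈ Subgroup.center G →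
      z ^ e = 1 := by
  obtain ⟨x, n, U, hn, hU⟩ := step_one hp
  obtain ⟨m, u₀, v₀, W, hm, hu₀, hv₀, hWU, hW⟩ := step_two h3 x n U
  obtain ⟨κ, hκc, hκz⟩ := step_three x n m U W hU u₀ v₀ hu₀ hv₀ hWU hW
  generalize hH : (W.toOpenSubgroup.toSubgroup : Subgroup G) = H at κ hκc hκz
  have hHo : IsOpen (H : Set G) := by rw [← hH]; exact W.isOpen
  have hHn : H.Normal := by rw [← hH]; exact W.isNormal'
  have : Finite (G ⧸ H) := Subgroup.quotient_finite_of_isOpen H hHo
  have : H.FiniteIndex := Subgroup.finiteIndex_of_finite_quotient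
  have hcont : Continuous κ.transfer := transfer_continuous H hHn hHo κ hκc
  have hker : (commutator G).topologicalClosure ≤ κ.transfer.ker := by
    apply Subgroup.topologicalClosure_minimal
    · exact Abelianization.commutator_subset_ker _
    · exact isClosed_singleton.preimage hcont
  refine ⟨H.index * (n * m), Nat.mul_pos (Nat.pos_of_ne_zero Subgroup.FiniteIndex.index_ne_zero)
    (Nat.mul_pos hn hm), fun z hz hzc => ?_⟩
  have hcomm : ∀ g : G, Commute g z := fun g => (Subgroup.mem_center_iff.1 hzc g)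
  have key : ∀ (k : ℕ) (g₀ : G), g₀⁻¹ * z ^ k * g₀ ∈ H → g₀⁻¹ * z ^ k * g₀ = z ^ k := by
    intro k g₀ _
    rw [mul_assoc, ← ((hcomm g₀).pow_right k).eq, inv_mul_cancel_left]
  have h1 : κ.transfer z = 1 := hker hz
  rw [MonoidHom.transfer_eq_pow κ z key] at h1
  have h2 := hκz (z ^ H.index) (MonoidHom.transfer_eq_pow_aux z key) (pow_mem hzc _)
  rw [h1] at h2
  rw [pow_mul, ← h2]
  rfl

/-- every element of the closed commutator subgroup has finite order -/
theorem main_periodic (hp : ∀ g : G, ∃ n : ℕ, 0 < n ∧ g ^ n ∈ Subgroup.center G)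
    (h3 : ∀ x y z : G, ∀ h ∈ commutator (Subgroup.closure ({x, y, z} : Set G)),
      IsOfFinOrder h) :
    ∀ g ∈ (commutator G).topologicalClosure, IsOfFinOrder g := by
  intro g hg
  obtain ⟨e, he, h⟩ := main_exponent hp h3
  obtain ⟨n, hn, hgn⟩ := hp g
  rw [isOfFinOrder_iff_pow_eq_one]
  refine ⟨n * e, Nat.mul_pos hn he, ?_⟩
  rw [pow_mul]
  exact h _ (pow_mem hg n) hgn

end main

section schur

variable {G : Type*} [Group G]

/-- periodicity of `G / Z(G)` in terms of elements of `G` -/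
theorem periodic_iff (hp : ∀ q : G ⧸ Subgroup.center G, IsOfFinOrder q) :
    ∀ g : G, ∃ n : ℕ, 0 < n ∧ g ^ n ∈ Subgroup.center G := by
  intro g
  obtain ⟨n, hn, h⟩ := isOfFinOrder_iff_pow_eq_one.1 (hp (g : G ⧸ Subgroup.center G))
  refine ⟨n, hn, ?_⟩
  rw [← QuotientGroup.eq_one_iff]
  rw [QuotientGroup.mk_pow]
  exact h

/-- Schur: if the image of the subgroup `K` modulo the centre is finite, then the commutator
subgroup of `K` is finite. -/
theorem finite_commutator_of_finite_map (K : Subgroup G)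
    (hK : (K.map (QuotientGroup.mk' (Subgroup.center G)) : Set (G ⧸ Subgroup.center G)).Finite) :
    Finite (commutator K) := by
  have hfin : (commutatorSet K).Finite := by
    let Q := G ⧸ Subgroup.center G
    let F : Q × Q → Set K := fun p => {k : K | ∃ a b : K, ((a : G) : Q) = p.1 ∧ ((b : G) : Q) = p.2 ∧
      k = ⁅a, b⁆}
    have hsub : ∀ p : Q × Q, (F p).Subsingleton := by
      rintro p k ⟨a, b, ha, hb, rfl⟩ k' ⟨a', b', ha', hb', rfl⟩
      rw [← ha'] at ha
      rw [← hb'] at hb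
      rw [QuotientGroup.eq] at ha hb
      apply Subtype.ext
      have ha2 : (a' : G) = a * ((a : G)⁻¹ * a') := by group
      have hb2 : (b' : G) = b * ((b : G)⁻¹ * b') := by group
      simp only [commutatorElement_def, Subgroup.coe_mul, Subgroup.coe_inv]
      generalize hz : (a : G)⁻¹ * a' = z at ha ha2
      generalize hw : (b : G)⁻¹ * b' = w at hb hb2
      rw [ha2, hb2]
      have cz : ∀ g : G, g * z = z * g := Subgroup.mem_center_iff.1 ha
      have cw : ∀ g : G, g * w = w * g := Subgroup.mem_center_iff.1 hb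
      rw [cz, cw, mul_inv_rev, mul_inv_rev]
      have e1 : z * (a : G) * (w * b) * ((a : G)⁻¹ * z⁻¹) * ((b : G)⁻¹ * w⁻¹) =
          z * (w * (a * b * (a : G)⁻¹)) * z⁻¹ * (b : G)⁻¹ * w⁻¹ := by
        rw [← mul_assoc (z * (a : G)) w b, mul_assoc z (a : G) w, cw]
        group
      rw [e1, ← cz (w * _)]
      rw [mul_assoc (w * ((a : G) * b * (a : G)⁻¹)) z z⁻¹, mul_inv_cancel, mul_one,
        ← cw ((a : G) * b * (a : G)⁻¹), mul_assoc _ w (b : G)⁻¹, ← cw]
      group
    refine Set.Finite.subset ((hK.prod hK).biUnion (t := F) (fun p _ => (hsub p).finite)) ?_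
    rintro k ⟨a, b, rfl⟩
    rw [Set.mem_iUnion₂]
    exact ⟨(((a : G) : Q), ((b : G) : Q)), ⟨⟨a, a.2, rfl⟩, ⟨b, b.2, rfl⟩⟩, a, b, rfl, rfl, rfl⟩
  have : Finite (commutatorSet K) := hfin
  infer_instance

theorem three_generator_of_locally_finite
    (hlf : ∀ S : Finset (G ⧸ Subgroup.center G),
      (Subgroup.closure (S : Set (G ⧸ Subgroup.center G)) :
        Set (G ⧸ Subgroup.center G)).Finite) :
    ∀ x y z : G, ∀ h ∈ commutator (Subgroup.closure ({x, y, z} : Set G)), IsOfFinOrder h := by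
  classical
  intro x y z h hh
  have h1 : ((Subgroup.closure ({x, y, z} : Set G)).map
      (QuotientGroup.mk' (Subgroup.center G)) : Set (G ⧸ Subgroup.center G)).Finite := by
    have h2 := hlf {(x : G ⧸ Subgroup.center G), (y : G ⧸ Subgroup.center G),
      (z : G ⧸ Subgroup.center G)}
    rw [MonoidHom.map_closure]
    convert h2 using 4
    simp [Set.image_insert_eq]
  have := finite_commutator_of_finite_map _ h1
  have h3 : IsOfFinOrder (⟨h, hh⟩ : commutator (Subgroup.closure ({x, y, z} : Set G))) :=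
    isOfFinOrder_of_finite _
  exact Submonoid.isOfFinOrder_coe.2 h3

theorem periodic_of_locally_finite
    (hlf : ∀ S : Finset (G ⧸ Subgroup.center G),
      (Subgroup.closure (S : Set (G ⧸ Subgroup.center G)) :
        Set (G ⧸ Subgroup.center G)).Finite) :
    ∀ q : G ⧸ Subgroup.center G, IsOfFinOrder q := by
  intro q
  have h := hlf {q}
  have : Finite (Subgroup.closure (({q} : Finset (G ⧸ Subgroup.center G)) :
      Set (G ⧸ Subgroup.center G))) := h
  have h3 : IsOfFinOrder (⟨q, Subgroup.subset_closure (by simp)⟩ :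
      Subgroup.closure (({q} : Finset (G ⧸ Subgroup.center G)) : Set (G ⧸ Subgroup.center G))) :=
    isOfFinOrder_of_finite _
  exact Submonoid.isOfFinOrder_coe.2 h3

end schur

/-- Let `G` be a profinite group.
(1) If `G / Z(G)` is locally finite, then every element of the closed commutator subgroup has
finite order, and the central elements of the closed commutator subgroup have bounded order.
(2) If `G / Z(G)` is periodic, then the closed commutator subgroup is periodic if and only if the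
commutator subgroup of each subgroup generated by three elements is periodic. -/
theorem result {G : Type*} [Group G] [TopologicalSpace G] [IsTopologicalGroup G]
    [CompactSpace G] [T2Space G] [TotallyDisconnectedSpace G] :
    ((∀ S : Finset (G ⧸ Subgroup.center G),
        (Subgroup.closure (S : Set (G ⧸ Subgroup.center G)) :
          Set (G ⧸ Subgroup.center G)).Finite) →
      (∀ g ∈ (commutator G).topologicalClosure, IsOfFinOrder g) ∧
      (∃ e : ℕ, 0 < e ∧ ∀ z ∈ (commutator G).topologicalClosure, z ∈ Subgroup.center G →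
        z ^ e = 1)) ∧
    ((∀ q : G ⧸ Subgroup.center G, IsOfFinOrder q) →
      ((∀ g ∈ (commutator G).topologicalClosure, IsOfFinOrder g) ↔
        ∀ x y z : G, ∀ h ∈ commutator (Subgroup.closure ({x, y, z} : Set G)),
          IsOfFinOrder h)) := by
  refine ⟨fun hlf => ⟨?_, ?_⟩, fun hp => ⟨?_, ?_⟩⟩
  · exact main_periodic (periodic_iff (periodic_of_locally_finite hlf))
      (three_generator_of_locally_finite hlf)
  · exact main_exponent (periodic_iff (periodic_of_locally_finite hlf))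
      (three_generator_of_locally_finite hlf)
  · intro h x y z k hk
    have h1 : (k : G) ∈ commutator G := by
      have h2 : (commutator (Subgroup.closure ({x, y, z} : Set G))).map
          (Subgroup.closure ({x, y, z} : Set G)).subtype ≤ commutator G := by
        rw [commutator_def, commutator_def, Subgroup.map_commutator]
        exact Subgroup.commutator_mono le_top le_top
      exact h2 ⟨k, hk, rfl⟩
    have h3 := h (k : G) (Subgroup.le_topologicalClosure _ h1)
    exact Submonoid.isOfFinOrder_coe.1 h3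
  · intro h3
    exact main_periodic (periodic_iff hp) h3

end Pool.Agent.Results.MP_6bba90_al.CentralQuotient
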